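import Pool.Agent.Lib_helper32.EvenHomeo.SpaceCoordK
import Pool.Agent.Lib_helper73.MinHomeo.SphConn
import Pool.Agent.Lib_helper73.MinHomeo.SphTrans

/-!
# SPACEBASE: the base for Euclidean space
-/

open Set Metric Topology

namespace Pool.Agent.EvenHomeo

open Pool.Agent.MinHomeo (Amb Sph RotChart)

namespace SpaceCoord

open Pool.Agent.MinHomeo.SphChart

/-! ### the rotations -/

/-- the Hopf rotations and their chart (with the rotations `rotH`) -/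
noncomputable def rotChart (F : Type) [NormedAddCommGroup F] [InnerProductSpace ℂ F]
    [FiniteDimensional ℂ F] [NormedSpace ℝ F] : RotChart F (Sph F) where
  R := rotH
  R_add := rot_add
  R_one x := by
    apply Subtype.ext
    show e 1 • (x : Amb F) = _
    rw [e_one, one_smul]
  R_isom t x y := by
    show dist (e t • (x : Amb F)) (e t • (y : Amb F)) = dist (x : Amb F) (y : Amb F)
    rw [dist_eq_norm, dist_eq_norm, ← smul_sub, norm_smul, norm_e, one_mul]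
  R_cont := rot_cont2
  Φ := chart
  Φ_cont := chart_cont
  Φ_open := chart_open
  Φ_eq := chart_eq
  R_Φ := rot_chart
  dense := range_dense
  trans p := by
    obtain ⟨u, hu⟩ := MinHomeo.sphTrans F (chart (0, 0)) p
    have hmem : ∀ x : Sph F, u (x : Amb F) ∈ sphere (0 : Amb F) 1 := by
      intro x
      rw [mem_sphere_zero_iff_norm, u.norm_map]
      exact mem_sphere_zero_iff_norm.1 x.2
    have hmem' : ∀ x : Sph F, u.symm (x : Amb F) ∈ sphere (0 : Amb F) 1 := by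
      intro x
      rw [mem_sphere_zero_iff_norm, u.symm.norm_map]
      exact mem_sphere_zero_iff_norm.1 x.2
    let U : Sph F ≃ₜ Sph F :=
      { toFun := fun x => ⟨u (x : Amb F), hmem x⟩
        invFun := fun x => ⟨u.symm (x : Amb F), hmem' x⟩
        left_inv := fun x => Subtype.ext (u.symm_apply_apply _)
        right_inv := fun x => Subtype.ext (u.apply_symm_apply _)
        continuous_toFun := Continuous.subtype_mk (u.continuous.comp continuous_subtype_val) _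
        continuous_invFun :=
          Continuous.subtype_mk (u.symm.continuous.comp continuous_subtype_val) _ }
    refine ⟨U, ?_, ?_⟩
    · intro t x
      apply Subtype.ext
      show u (e t • (x : Amb F)) = e t • u (x : Amb F)
      rw [map_smul]
    · exact Subtype.ext hu
  conn O hO hO' := by
    rw [range_chart]
    exact MinHomeo.sphConn F O hO hO'

variable {k : ℕ}

/-- the chart of the base before restriction to the sphere -/
noncomputable def betaPre (r₀ r₁ : ℝ) (w : F_ k) (s θ : ℝ) : Amb (G_ k) :=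
  WithLp.toLp 2 (e θ * (r₀ : ℂ), WithLp.toLp 2 (e (θ + s) * (r₁ : ℂ), e θ • w))

theorem betaPre_fst (r₀ r₁ : ℝ) (w : F_ k) (s θ : ℝ) :
    (betaPre r₀ r₁ w s θ).fst = e θ * (r₀ : ℂ) := rfl

theorem betaPre_snd_fst (r₀ r₁ : ℝ) (w : F_ k) (s θ : ℝ) :
    (betaPre r₀ r₁ w s θ).snd.fst = e (θ + s) * (r₁ : ℂ) := rfl

theorem betaPre_snd_snd (r₀ r₁ : ℝ) (w : F_ k) (s θ : ℝ) :
    (betaPre r₀ r₁ w s θ).snd.snd = e θ • w := rfl

theorem amb_norm_sq (p : Amb (G_ k)) :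
    ‖p‖ ^ 2 = ‖p.fst‖ ^ 2 + ‖p.snd.fst‖ ^ 2 + ‖p.snd.snd‖ ^ 2 := by
  have h1 : ‖p‖ ^ 2 = ‖p.fst‖ ^ 2 + ‖p.snd‖ ^ 2 := WithLp.prod_norm_sq_eq_of_L2 _
  have h2 : ‖p.snd‖ ^ 2 = ‖p.snd.fst‖ ^ 2 + ‖p.snd.snd‖ ^ 2 := WithLp.prod_norm_sq_eq_of_L2 _
  rw [h1, h2, add_assoc]

theorem betaPre_norm (r₀ r₁ : ℝ) (w : F_ k) (s θ : ℝ) (h : r₀ ^ 2 + r₁ ^ 2 + ‖w‖ ^ 2 = 1) :
    ‖betaPre r₀ r₁ w s θ‖ = 1 := by
  have h1 := amb_norm_sq (betaPre r₀ r₁ w s θ)
  rw [betaPre_fst, betaPre_snd_fst, betaPre_snd_snd, norm_mul, norm_mul, norm_smul, norm_e,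
    norm_e, one_mul, one_mul, one_mul, Complex.norm_real, Complex.norm_real, Real.norm_eq_abs,
    Real.norm_eq_abs, sq_abs, sq_abs, h] at h1
  have h2 := norm_nonneg (betaPre r₀ r₁ w s θ)
  nlinarith

/-- the chart of the base -/
noncomputable def beta (q : Y_ k × ℝ × ℝ) : B_ k :=
  ⟨betaPre q.1.1.1 q.1.1.2.1 q.1.1.2.2 q.2.1 q.2.2,
    mem_sphere_zero_iff_norm.2 (betaPre_norm _ _ _ _ _ q.1.2.2.2)⟩

theorem beta_val (q : Y_ k × ℝ × ℝ) :
    (beta q : Amb (G_ k)) = betaPre q.1.1.1 q.1.1.2.1 q.1.1.2.2 q.2.1 q.2.2 := rfl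

theorem c0_beta (y : Y_ k) (s θ : ℝ) : c0 (beta (y, s, θ)) = e θ * (y.1.1 : ℂ) := rfl

theorem c1_beta (y : Y_ k) (s θ : ℝ) : c1 (beta (y, s, θ)) = e (θ + s) * (y.1.2.1 : ℂ) := rfl

theorem cw_beta (y : Y_ k) (s θ : ℝ) : cw (beta (y, s, θ)) = e θ • y.1.2.2 := rfl

theorem par_beta (y : Y_ k) (s θ : ℝ) :
    Par (beta (y, s, θ)) y.1.1 y.1.2.1 y.1.2.2 s θ := ⟨y.2.1, y.2.2.1, rfl, rfl, rfl⟩

theorem ext_B {z z' : B_ k} (h0 : c0 z = c0 z') (h1 : c1 z = c1 z') (h2 : cw z = cw z') :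
    z = z' := Subtype.ext (ext_amb h0 (ext_amb h1 h2))

theorem B_norm (z : B_ k) : ‖c0 z‖ ^ 2 + ‖c1 z‖ ^ 2 + ‖cw z‖ ^ 2 = 1 := by
  have h1 := amb_norm_sq (z : Amb (G_ k))
  rw [mem_sphere_zero_iff_norm.1 z.2] at h1
  have h2 : ‖c0 z‖ ^ 2 + ‖c1 z‖ ^ 2 + ‖cw z‖ ^ 2 = ‖(z : Amb (G_ k)).fst‖ ^ 2 +
    ‖(z : Amb (G_ k)).snd.fst‖ ^ 2 + ‖(z : Amb (G_ k)).snd.snd‖ ^ 2 := rfl
  rw [h2, ← h1]
  norm_num

/-- coordinates determine the point: `Par` is the graph of `beta` -/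
theorem par_iff (z : B_ k) (r₀ r₁ : ℝ) (w : F_ k) (s θ : ℝ) :
    Par z r₀ r₁ w s θ ↔ ∃ h, z = beta (⟨(r₀, r₁, w), h⟩, s, θ) := by
  constructor
  · rintro ⟨h0, h1, h2, h3, h4⟩
    have h5 := B_norm z
    rw [h2, h3, h4, norm_mul, norm_mul, norm_smul, norm_e, norm_e, one_mul, one_mul, one_mul,
      Complex.norm_real, Complex.norm_real, Real.norm_eq_abs, Real.norm_eq_abs, sq_abs, sq_abs]
      at h5
    exact ⟨⟨h0, h1, h5⟩, ext_B h2 h3 h4⟩
  · rintro ⟨h, rfl⟩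
    exact par_beta _ _ _

theorem beta_cont : Continuous (beta : Y_ k × ℝ × ℝ → B_ k) := by
  have hr0 : Continuous fun q : Y_ k × ℝ × ℝ => ((q.1.1.1 : ℝ) : ℂ) :=
    Complex.continuous_ofReal.comp
      (continuous_fst.comp (continuous_subtype_val.comp continuous_fst))
  have hr1 : Continuous fun q : Y_ k × ℝ × ℝ => ((q.1.1.2.1 : ℝ) : ℂ) :=
    Complex.continuous_ofReal.comp (continuous_fst.comp (continuous_snd.comp
      (continuous_subtype_val.comp continuous_fst)))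
  have hw : Continuous fun q : Y_ k × ℝ × ℝ => q.1.1.2.2 :=
    continuous_snd.comp (continuous_snd.comp (continuous_subtype_val.comp continuous_fst))
  have hs : Continuous fun q : Y_ k × ℝ × ℝ => q.2.1 := continuous_fst.comp continuous_snd
  have hθ : Continuous fun q : Y_ k × ℝ × ℝ => q.2.2 := continuous_snd.comp continuous_snd
  have h2 : Continuous fun q : Y_ k × ℝ × ℝ =>
      (WithLp.toLp 2 (e (q.2.2 + q.2.1) * ((q.1.1.2.1 : ℝ) : ℂ), e q.2.2 • q.1.1.2.2) : G_ k) :=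
    (WithLp.prod_continuous_toLp 2 ℂ (F_ k)).comp
      (((e_cont.comp (hθ.add hs)).mul hr1).prodMk ((e_cont.comp hθ).smul hw))
  have h1 : Continuous fun q : Y_ k × ℝ × ℝ =>
      betaPre q.1.1.1 q.1.1.2.1 q.1.1.2.2 q.2.1 q.2.2 :=
    (WithLp.prod_continuous_toLp 2 ℂ (G_ k)).comp (((e_cont.comp hθ).mul hr0).prodMk h2)
  exact Continuous.subtype_mk h1 _

theorem norm_e_mul (θ : ℝ) {r : ℝ} (hr : 0 < r) : ‖e θ * (r : ℂ)‖ = r := by
  rw [norm_mul, norm_e, one_mul, Complex.norm_real, Real.norm_of_nonneg hr.le]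

theorem beta_eq (y : Y_ k) (s θ : ℝ) (y' : Y_ k) (s' θ' : ℝ) :
    beta (y, s, θ) = beta (y', s', θ') ↔
      y = y' ∧ (∃ k : ℤ, s' = s + k) ∧ ∃ k : ℤ, θ' = θ + k := by
  constructor
  · intro h
    have h0 : e θ * (y.1.1 : ℂ) = e θ' * (y'.1.1 : ℂ) := congrArg c0 h
    have h1 : e (θ + s) * (y.1.2.1 : ℂ) = e (θ' + s') * (y'.1.2.1 : ℂ) := congrArg c1 h
    have h2 : e θ • y.1.2.2 = e θ' • y'.1.2.2 := congrArg cw h
    have hr0 : y.1.1 = y'.1.1 := by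
      rw [← norm_e_mul θ y.2.1, h0, norm_e_mul θ' y'.2.1]
    have hr1 : y.1.2.1 = y'.1.2.1 := by
      rw [← norm_e_mul (θ + s) y.2.2.1, h1, norm_e_mul (θ' + s') y'.2.2.1]
    have hne0 : (y'.1.1 : ℂ) ≠ 0 := by exact_mod_cast y'.2.1.ne'
    have hne1 : (y'.1.2.1 : ℂ) ≠ 0 := by exact_mod_cast y'.2.2.1.ne'
    rw [hr0] at h0
    rw [hr1] at h1
    have h3 := mul_right_cancel₀ hne0 h0
    have h4 := mul_right_cancel₀ hne1 h1
    rw [h3] at h2
    have hw : y.1.2.2 = y'.1.2.2 := smul_right_injective (F_ k) (e_ne θ') h2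
    obtain ⟨a, ha⟩ := (e_eq_iff _ _).1 h3
    obtain ⟨c, hc⟩ := (e_eq_iff _ _).1 h4
    refine ⟨Subtype.ext (Prod.ext hr0 (Prod.ext hr1 hw)), ⟨c - a, ?_⟩, ⟨a, ha⟩⟩
    push_cast
    linarith
  · rintro ⟨rfl, ⟨a, rfl⟩, ⟨c, rfl⟩⟩
    have h1 : e (θ + c) = e θ := ((e_eq_iff _ _).2 ⟨c, rfl⟩).symm
    have h2 : e (θ + c + (s + a)) = e (θ + s) := by
      refine ((e_eq_iff _ _).2 ⟨c + a, ?_⟩).symm
      push_cast
      ring
    apply ext_B
    · rw [c0_beta, c0_beta, h1]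
    · rw [c1_beta, c1_beta, h2]
    · rw [cw_beta, cw_beta, h1]

/-- local inverse of the chart near the angles `θ₀` and `φ₀` -/
noncomputable def bsec (θ₀ φ₀ : ℝ) (z : B_ k) : (ℝ × ℝ × F_ k) × ℝ × ℝ :=
  ((‖c0 z‖, ‖c1 z‖, e (-(θ₀ + (c0 z * e (-θ₀)).arg / (2 * Real.pi))) • cw z),
    (φ₀ + (c1 z * e (-φ₀)).arg / (2 * Real.pi)) - (θ₀ + (c0 z * e (-θ₀)).arg / (2 * Real.pi)),
    θ₀ + (c0 z * e (-θ₀)).arg / (2 * Real.pi))

theorem bsec_mem (θ₀ φ₀ : ℝ) {z : B_ k} (h0 : c0 z ≠ 0) (h1 : c1 z ≠ 0) :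
    0 < (bsec θ₀ φ₀ z).1.1 ∧ 0 < (bsec θ₀ φ₀ z).1.2.1 ∧
      (bsec θ₀ φ₀ z).1.1 ^ 2 + (bsec θ₀ φ₀ z).1.2.1 ^ 2 + ‖(bsec θ₀ φ₀ z).1.2.2‖ ^ 2 = 1 := by
  refine ⟨norm_pos_iff.2 h0, norm_pos_iff.2 h1, ?_⟩
  have h2 := B_norm z
  show ‖c0 z‖ ^ 2 + ‖c1 z‖ ^ 2 + ‖e _ • cw z‖ ^ 2 = 1
  rw [norm_smul, norm_e, one_mul, h2]

theorem e_add_arg (c : ℂ) (θ : ℝ) :
    e (θ + (c * e (-θ)).arg / (2 * Real.pi)) * (‖c‖ : ℂ) = c := by
  have h1 := e_arg (c * e (-θ))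
  rw [norm_mul, norm_e, mul_one] at h1
  rw [e_add, mul_assoc, h1, mul_left_comm, e_mul_neg, mul_one]

theorem beta_bsec (θ₀ φ₀ : ℝ) {z : B_ k} (h0 : c0 z ≠ 0) (h1 : c1 z ≠ 0) :
    beta (⟨(bsec θ₀ φ₀ z).1, bsec_mem θ₀ φ₀ h0 h1⟩, (bsec θ₀ φ₀ z).2) = z := by
  apply ext_B
  · show e (θ₀ + (c0 z * e (-θ₀)).arg / (2 * Real.pi)) * (‖c0 z‖ : ℂ) = c0 z
    exact e_add_arg _ _
  · show e ((θ₀ + (c0 z * e (-θ₀)).arg / (2 * Real.pi)) +
      ((φ₀ + (c1 z * e (-φ₀)).arg / (2 * Real.pi)) -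
        (θ₀ + (c0 z * e (-θ₀)).arg / (2 * Real.pi)))) * (‖c1 z‖ : ℂ) = c1 z
    rw [add_sub_cancel]
    exact e_add_arg _ _
  · show e (θ₀ + (c0 z * e (-θ₀)).arg / (2 * Real.pi)) •
      (e (-(θ₀ + (c0 z * e (-θ₀)).arg / (2 * Real.pi))) • cw z) = cw z
    rw [smul_smul, e_mul_neg, one_smul]

theorem e_mul_cancel (θ r : ℝ) : (e θ * (r : ℂ) * e (-θ)) = (r : ℂ) := by
  rw [mul_right_comm, e_mul_neg, one_mul]

theorem bsec_beta (y : Y_ k) (s θ : ℝ) :
    bsec θ (θ + s) (beta (y, s, θ)) = (y.1, s, θ) := by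
  unfold bsec
  rw [c0_beta, c1_beta, cw_beta, e_mul_cancel, e_mul_cancel,
    Complex.arg_ofReal_of_nonneg y.2.1.le, Complex.arg_ofReal_of_nonneg y.2.2.1.le,
    norm_e_mul θ y.2.1, norm_e_mul (θ + s) y.2.2.1, zero_div, add_zero, add_zero, smul_smul,
    e_neg_mul, one_smul, add_sub_cancel_left]

theorem bsec_cont (y : Y_ k) (s θ : ℝ) :
    ContinuousAt (bsec θ (θ + s)) (beta (y, s, θ)) := by
  have harg : ∀ (c : B_ k → ℂ) (φ : ℝ) (r : ℝ), 0 < r → Continuous c →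
      c (beta (y, s, θ)) = e φ * (r : ℂ) →
      ContinuousAt (fun z => (c z * e (-φ)).arg / (2 * Real.pi)) (beta (y, s, θ)) := by
    intro c φ r hr hc hcr
    refine ContinuousAt.div_const ?_ _
    have h1 : ContinuousAt (fun z => c z * e (-φ)) (beta (y, s, θ)) :=
      (hc.mul continuous_const).continuousAt
    refine ContinuousAt.comp (g := Complex.arg) ?_ h1
    apply Complex.continuousAt_arg
    rw [hcr, e_mul_cancel φ r]
    left
    rw [Complex.ofReal_re]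
    exact hr
  have h0 := harg c0 θ y.1.1 y.2.1 c0_cont (c0_beta y s θ)
  have h1 := harg c1 (θ + s) y.1.2.1 y.2.2.1 c1_cont (c1_beta y s θ)
  have hθ : ContinuousAt (fun z : B_ k => θ + (c0 z * e (-θ)).arg / (2 * Real.pi))
      (beta (y, s, θ)) := continuousAt_const.add h0
  have hφ : ContinuousAt (fun z : B_ k => (θ + s) + (c1 z * e (-(θ + s))).arg / (2 * Real.pi))
      (beta (y, s, θ)) := continuousAt_const.add h1
  unfold bsec
  refine ContinuousAt.prodMk (ContinuousAt.prodMk c0_cont.norm.continuousAt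
    (ContinuousAt.prodMk c1_cont.norm.continuousAt ?_)) (ContinuousAt.prodMk (hφ.sub hθ) hθ)
  exact (ContinuousAt.comp (g := e) e_cont.continuousAt hθ.neg).smul cw_cont.continuousAt

theorem c0_beta_ne (q : Y_ k × ℝ × ℝ) : c0 (beta q) ≠ 0 := by
  obtain ⟨y, s, θ⟩ := q
  rw [c0_beta]
  exact mul_ne_zero (e_ne _) (by exact_mod_cast y.2.1.ne')

theorem c1_beta_ne (q : Y_ k × ℝ × ℝ) : c1 (beta q) ≠ 0 := by
  obtain ⟨y, s, θ⟩ := q
  rw [c1_beta]
  exact mul_ne_zero (e_ne _) (by exact_mod_cast y.2.2.1.ne')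

theorem range_beta : range (beta : Y_ k × ℝ × ℝ → B_ k) = {z | c0 z ≠ 0 ∧ c1 z ≠ 0} := by
  ext z
  constructor
  · rintro ⟨q, rfl⟩
    exact ⟨c0_beta_ne q, c1_beta_ne q⟩
  · rintro ⟨h0, h1⟩
    exact ⟨_, beta_bsec 0 0 h0 h1⟩

theorem beta_open : IsOpenMap (beta : Y_ k × ℝ × ℝ → B_ k) := by
  rw [isOpenMap_iff_nhds_le]
  rintro ⟨y, s, θ⟩ N hN
  rw [Filter.mem_map] at hN
  have hind : IsInducing (fun q : Y_ k × ℝ × ℝ => ((q.1.1, q.2) : (ℝ × ℝ × F_ k) × ℝ × ℝ)) :=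
    IsInducing.subtypeVal.prodMap IsInducing.id
  rw [hind.nhds_eq_comap, Filter.mem_comap] at hN
  obtain ⟨U, hU, hUN⟩ := hN
  have h1 : bsec θ (θ + s) ⁻¹' U ∈ 𝓝 (beta (y, s, θ) : B_ k) := by
    apply bsec_cont y s θ
    rw [bsec_beta]
    exact hU
  have h2 : {z : B_ k | c0 z ≠ 0} ∈ 𝓝 (beta (y, s, θ) : B_ k) :=
    (isOpen_ne_fun c0_cont continuous_const).mem_nhds (c0_beta_ne _)
  have h3 : {z : B_ k | c1 z ≠ 0} ∈ 𝓝 (beta (y, s, θ) : B_ k) :=
    (isOpen_ne_fun c1_cont continuous_const).mem_nhds (c1_beta_ne _)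
  filter_upwards [h1, h2, h3] with z hz1 hz2 hz3
  have h4 := beta_bsec θ (θ + s) hz2 hz3
  rw [← h4]
  exact hUN (show ((bsec θ (θ + s) z).1, (bsec θ (θ + s) z).2) ∈ U from hz1)

theorem dense_c1 : Dense {z : B_ k | c1 z ≠ 0} := by
  intro p
  by_cases hp : c1 p = 0
  · have hn : ‖c0 p‖ ^ 2 + ‖cw p‖ ^ 2 = 1 := by
      have := B_norm p
      rw [hp] at this
      simpa using this
    let γ : ℝ → Amb (G_ k) := fun s => WithLp.toLp 2 ((Real.cos s : ℂ) * c0 p,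
      WithLp.toLp 2 ((Real.sin s : ℂ), (Real.cos s : ℂ) • cw p))
    have hγ : ∀ s, ‖γ s‖ = 1 := by
      intro s
      have h1 := amb_norm_sq (γ s)
      have h2 : (γ s).fst = (Real.cos s : ℂ) * c0 p := rfl
      have h3 : (γ s).snd.fst = (Real.sin s : ℂ) := rfl
      have h4 : (γ s).snd.snd = (Real.cos s : ℂ) • cw p := rfl
      rw [h2, h3, h4, norm_smul, norm_mul, Complex.norm_real, Complex.norm_real, mul_pow, mul_pow,
        Real.norm_eq_abs, Real.norm_eq_abs, sq_abs, sq_abs] at h1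
      have h5 := Real.sin_sq_add_cos_sq s
      have h6 : ‖γ s‖ ^ 2 = 1 := by
        rw [h1]
        have : Real.cos s ^ 2 * ‖c0 p‖ ^ 2 + Real.sin s ^ 2 + Real.cos s ^ 2 * ‖cw p‖ ^ 2 =
          Real.cos s ^ 2 * (‖c0 p‖ ^ 2 + ‖cw p‖ ^ 2) + Real.sin s ^ 2 := by ring
        rw [this, hn]
        linarith
      have h7 := norm_nonneg (γ s)
      nlinarith
    let g : ℝ → B_ k := fun s => ⟨γ s, mem_sphere_zero_iff_norm.2 (hγ s)⟩
    have hg : Continuous g := by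
      refine Continuous.subtype_mk ?_ _
      refine (WithLp.prod_continuous_toLp 2 ℂ (G_ k)).comp (Continuous.prodMk (by fun_prop) ?_)
      exact (WithLp.prod_continuous_toLp 2 ℂ (F_ k)).comp
        (Continuous.prodMk (by fun_prop) (by fun_prop))
    have hg0 : g 0 = p := by
      apply ext_B
      · show ((Real.cos 0 : ℝ) : ℂ) * c0 p = _
        simp
      · show ((Real.sin 0 : ℝ) : ℂ) = _
        rw [hp]
        simp
      · show ((Real.cos 0 : ℝ) : ℂ) • cw p = _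
        simp
    have ht : Filter.Tendsto g (𝓝[>] 0) (𝓝 p) := by
      have := hg.tendsto 0
      rw [hg0] at this
      exact this.mono_left nhdsWithin_le_nhds
    refine mem_closure_of_tendsto ht ?_
    have h5 : Ioo (0 : ℝ) Real.pi ∈ 𝓝[>] (0 : ℝ) := Ioo_mem_nhdsGT Real.pi_pos
    filter_upwards [h5] with s hs
    show ((Real.sin s : ℝ) : ℂ) ≠ 0
    exact_mod_cast (Real.sin_pos_of_pos_of_lt_pi hs.1 hs.2).ne'
  · exact subset_closure hp

theorem beta_dense : Dense (range (beta : Y_ k × ℝ × ℝ → B_ k)) := by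
  have h0 : Dense {z : B_ k | c0 z ≠ 0} := by
    have := range_dense (F := G_ k)
    rw [range_chart] at this
    exact this
  have h1 : IsOpen {z : B_ k | c0 z ≠ 0} := isOpen_ne_fun c0_cont continuous_const
  rw [range_beta]
  exact h0.inter_of_isOpen_left dense_c1 h1

/-- the function `ρ` of the base -/
noncomputable def rho (y : Y_ k) : ℝ := (y.1.1 + y.1.2.1) / √2 - 9 / 10

theorem rho_cont : Continuous (rho : Y_ k → ℝ) := by
  unfold rho
  have h1 : Continuous fun y : Y_ k => y.1.1 := continuous_fst.comp continuous_subtype_val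
  have h2 : Continuous fun y : Y_ k => y.1.2.1 :=
    continuous_fst.comp (continuous_snd.comp continuous_subtype_val)
  exact ((h1.add h2).div_const _).sub continuous_const

theorem rho_cpt : IsCompact {y : Y_ k | -(1 / 20) ≤ rho y} := by
  rw [Subtype.isCompact_iff]
  have himg : Subtype.val '' {y : Y_ k | -(1 / 20) ≤ rho y} =
      {y : ℝ × ℝ × F_ k | (0 ≤ y.1 ∧ 0 ≤ y.2.1 ∧ y.1 ^ 2 + y.2.1 ^ 2 + ‖y.2.2‖ ^ 2 = 1) ∧
        -(1 / 20) ≤ (y.1 + y.2.1) / √2 - 9 / 10} := by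
    ext y
    constructor
    · rintro ⟨⟨y, h0, h1, h2⟩, h3, rfl⟩
      exact ⟨⟨h0.le, h1.le, h2⟩, h3⟩
    · rintro ⟨⟨h0, h1, h2⟩, h3⟩
      have h4 : (17 / 20 : ℝ) ≤ (y.1 + y.2.1) / √2 := by linarith
      rw [le_div_iff₀ (by positivity)] at h4
      have h5 : (7 / 5 : ℝ) ≤ √2 := by
        apply Real.le_sqrt_of_sq_le
        norm_num
      have h6 := sq_nonneg ‖y.2.2‖
      have h7 : y.1 ≤ 1 := by nlinarith
      have h8 : y.2.1 ≤ 1 := by nlinarith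
      have h9 : 0 < y.1 := by nlinarith
      have h10 : 0 < y.2.1 := by nlinarith
      exact ⟨⟨y, h9, h10, h2⟩, h3, rfl⟩
  rw [himg]
  have hc : Continuous fun y : ℝ × ℝ × F_ k => y.1 ^ 2 + y.2.1 ^ 2 + ‖y.2.2‖ ^ 2 := by fun_prop
  have hc2 : Continuous fun y : ℝ × ℝ × F_ k => (y.1 + y.2.1) / √2 - 9 / 10 := by fun_prop
  refine Metric.isCompact_of_isClosed_isBounded ?_ ?_
  · refine IsClosed.inter ?_ (isClosed_le continuous_const hc2)
    refine (isClosed_le continuous_const continuous_fst).inter ?_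
    exact (isClosed_le continuous_const (continuous_fst.comp continuous_snd)).inter
      (isClosed_eq hc continuous_const)
  · rw [isBounded_iff_forall_norm_le]
    refine ⟨1, ?_⟩
    rintro y ⟨⟨h0, h1, h2⟩, -⟩
    have h6 := sq_nonneg ‖y.2.2‖
    have h7 := norm_nonneg y.2.2
    rw [Prod.norm_def, Prod.norm_def, Real.norm_of_nonneg h0, Real.norm_of_nonneg h1]
    refine max_le (by nlinarith) (max_le (by nlinarith) (by nlinarith))

theorem Y_conn' : IsPreconnected (univ : Set (Y_ k)) := by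
  -- the normalisation of a convex set
  set S : Set (ℝ × ℝ × F_ k) := {y | 0 < y.1 ∧ 0 < y.2.1} with hS
  have hconv : Convex ℝ S := by
    intro x hx y hy a b ha hb hab
    obtain ⟨hx1, hx2⟩ := hx
    obtain ⟨hy1, hy2⟩ := hy
    constructor
    · show 0 < a * x.1 + b * y.1
      rcases eq_or_lt_of_le ha with rfl | ha'
      · rw [zero_add] at hab
        rw [hab]
        linarith
      · have := mul_pos ha' hx1
        have := mul_nonneg hb hy1.le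
        linarith
    · show 0 < a * x.2.1 + b * y.2.1
      rcases eq_or_lt_of_le ha with rfl | ha'
      · rw [zero_add] at hab
        rw [hab]
        linarith
      · have := mul_pos ha' hx2
        have := mul_nonneg hb hy2.le
        linarith
  let N : ℝ × ℝ × F_ k → ℝ := fun y => √(y.1 ^ 2 + y.2.1 ^ 2 + ‖y.2.2‖ ^ 2)
  have hN : Continuous N := by
    unfold N
    fun_prop
  have hNpos : ∀ y ∈ S, 0 < N y := by
    intro y hy
    apply Real.sqrt_pos.2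
    have h1 := hy.1
    positivity
  have hNsq : ∀ y : ℝ × ℝ × F_ k, N y ^ 2 = y.1 ^ 2 + y.2.1 ^ 2 + ‖y.2.2‖ ^ 2 := fun y =>
    Real.sq_sqrt (by positivity)
  let f : S → Y_ k := fun y => ⟨(N y.1)⁻¹ • y.1, by
    have h1 := hNpos y.1 y.2
    have h2 := hNsq y.1
    refine ⟨mul_pos (inv_pos.2 h1) y.2.1, mul_pos (inv_pos.2 h1) y.2.2, ?_⟩
    show ((N y.1)⁻¹ * y.1.1) ^ 2 + ((N y.1)⁻¹ * y.1.2.1) ^ 2 + ‖(N y.1)⁻¹ • y.1.2.2‖ ^ 2 = 1
    rw [norm_smul, Real.norm_of_nonneg (inv_nonneg.2 h1.le), mul_pow, mul_pow, mul_pow, ← mul_add,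
      ← mul_add, ← h2, inv_pow]
    exact inv_mul_cancel₀ (by positivity)⟩
  have hf : Continuous f := by
    have h1 : Continuous fun y : S => N y.1 := hN.comp continuous_subtype_val
    have h2 : Continuous fun y : S => (N y.1)⁻¹ := h1.inv₀ fun y => (hNpos y.1 y.2).ne'
    exact Continuous.subtype_mk (h2.smul continuous_subtype_val) _
  have hSc : IsPreconnected (univ : Set S) := by
    have : PreconnectedSpace S := Subtype.preconnectedSpace hconv.isPreconnected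
    exact isPreconnected_univ
  have himg : f '' univ = univ := by
    rw [image_univ, range_eq_univ]
    intro y
    refine ⟨⟨y.1, y.2.1, y.2.2.1⟩, ?_⟩
    apply Subtype.ext
    show (N y.1)⁻¹ • y.1 = y.1
    have : N y.1 = 1 := by
      show √(y.1.1 ^ 2 + y.1.2.1 ^ 2 + ‖y.1.2.2‖ ^ 2) = 1
      rw [y.2.2.2, Real.sqrt_one]
    rw [this, inv_one, one_smul]
  rw [← himg]
  exact hSc.image f hf.continuousOn

theorem rot_beta (t : ℝ) (y : Y_ k) (s θ : ℝ) : rot t (beta (y, s, θ)) = beta (y, s, θ + t) := by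
  apply ext_B
  · show e t * (e θ * (y.1.1 : ℂ)) = e (θ + t) * (y.1.1 : ℂ)
    rw [← mul_assoc, ← e_add, add_comm t θ]
  · show e t * (e (θ + s) * (y.1.2.1 : ℂ)) = e (θ + t + s) * (y.1.2.1 : ℂ)
    rw [← mul_assoc, ← e_add]
    congr 2
    ring
  · show e t • (e θ • y.1.2.2) = e (θ + t) • y.1.2.2
    rw [smul_smul, ← e_add, add_comm t θ]

/-- SPACEBASE -/
noncomputable def sphBase (k : ℕ) : Base (G_ k) (Y_ k) (B_ k) where
  toRotChart := rotChart (G_ k)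
  β := beta
  β_cont := beta_cont
  β_open := beta_open
  β_eq := beta_eq
  R_β := rot_beta
  β_dense := beta_dense
  ρ := rho
  ρ_cont := rho_cont
  ρ_cpt := rho_cpt
  Y_conn := Y_conn'

theorem sphBase_β (q : Y_ k × ℝ × ℝ) : (sphBase k).β q = beta q := rfl

theorem sphBase_ρ (y : Y_ k) : (sphBase k).ρ y = (y.1.1 + y.1.2.1) / √2 - 9 / 10 := rfl

theorem sphBase_std (k : ℕ) : IsStd (sphBase k) := ⟨par_beta, fun _ => rfl⟩

theorem finiteDimensional_G (k : ℕ) : FiniteDimensional ℝ (G_ k) := inferInstance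

end SpaceCoord

end Pool.Agent.EvenHomeo
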