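import Pool.Agent.Lib_helper30.EvenHomeo.Calc

/-!
# MODULUS: moduli of continuity along the lines and for small rotations
-/

open Set Metric Topology

namespace Pool.Agent.EvenHomeo

variable {X : Type} [NormedAddCommGroup X] [NormedSpace ℝ X] {Y B : Type} [MetricSpace Y]
  [MetricSpace B] {M : Type} [MetricSpace M]

/-- the compact parameter set of the chart, cut open along `s = 0` -/
def modulusK (b : Base X Y B) : Set (Y × ℝ × ℝ × T) :=
  {y | -(1 / 20) ≤ b.ρ y} ×ˢ (Icc (0 : ℝ) 1 ×ˢ (Icc (-3 : ℝ) 3 ×ˢ (univ : Set T)))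

theorem modulus_isCompact (b : Base X Y B) : IsCompact (modulusK b) :=
  b.ρ_cpt.prod (isCompact_Icc.prod (isCompact_Icc.prod isCompact_univ))

theorem modulus_mem (b : Base X Y B) {y : Y} {s θ : ℝ} (υ : T) (hy : -(1 / 20) ≤ b.ρ y)
    (hs : 0 ≤ s) (hs' : s ≤ 1) (hθ : |θ| ≤ 3) : (y, s, θ, υ) ∈ modulusK b :=
  ⟨hy, ⟨hs, hs'⟩, abs_le.1 hθ, mem_univ _⟩

/-- uniform continuity of the cut map on the compact parameter set -/
theorem modulus_unif (b : Base X Y B) {lam : ℝ} {e : M} (C : Coord b lam M e) {ε : ℝ}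
    (hε : 0 < ε) : ∃ δ : ℝ, 0 < δ ∧ ∀ q ∈ modulusK b, ∀ q' ∈ modulusK b, dist q q' < δ →
      dist (b.cut lam C.h q) (b.cut lam C.h q') < ε := by
  have h1 : ContinuousOn (b.cut lam C.h) (modulusK b) :=
    C.kcont.mono fun q hq => ⟨hq.2.1.1, hq.2.1.2⟩
  have h2 := (modulus_isCompact b).uniformContinuousOn_of_continuous h1
  rw [Metric.uniformContinuousOn_iff] at h2
  obtain ⟨δ, hδ, h3⟩ := h2 ε hε
  exact ⟨δ, hδ, fun q hq q' hq' h => h3 q hq q' hq' h⟩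

theorem modulus_cut_lt (b : Base X Y B) (lam : ℝ) (h : B × T → M) (y : Y) {s : ℝ} (hs : s < 1)
    (θ : ℝ) (υ : T) : b.cut lam h (y, s, θ, υ) = h (b.β (y, s, θ), υ) := by
  unfold Base.cut
  simp only [hs, if_true, add_zero]

theorem modulus_cut_one (b : Base X Y B) (lam : ℝ) (h : B × T → M) (y : Y) (θ : ℝ) (υ : T) :
    b.cut lam h (y, 1, θ, υ) = h (b.β (y, 1, θ), υ + D lam (b.ρ y) θ) := by
  unfold Base.cut
  simp only [lt_self_iff_false, if_false]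

/-- points of a line at nonnegative times -/
theorem modulus_ta_nonneg (b : Base X Y B) {lam : ℝ} {e : M} (C : Coord b lam M e) (α : ℝ)
    (y : Y) (θ : ℝ) {σ : ℝ} (h0 : 0 ≤ σ) (h1 : σ < 1) (υ : T) :
    C.h (b.ta lam α y θ σ υ) = b.cut lam C.h (y, σ, θ + α * σ, υ) := by
  rw [b.ta_of_nonneg lam α y θ h0, modulus_cut_lt b lam C.h y h1]

/-- points of a line at nonpositive times -/
theorem modulus_ta_nonpos (b : Base X Y B) {lam : ℝ} {e : M} (C : Coord b lam M e) (α : ℝ)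
    (y : Y) (θ : ℝ) {σ : ℝ} (h0 : σ ≤ 0) (υ : T) :
    C.h (b.ta lam α y θ σ υ) =
      b.cut lam C.h (y, 1 + σ, θ + α * σ, υ - D lam (b.ρ y) θ) := by
  rcases eq_or_lt_of_le h0 with rfl | h0
  · rw [b.ta_of_nonneg lam α y θ le_rfl, add_zero, mul_zero, add_zero, modulus_cut_one,
      sub_add_cancel]
    have := b.β_add_s y 0 θ 1
    rw [zero_add, Int.cast_one] at this
    rw [this]
  · rw [b.ta_of_neg lam α y θ h0, modulus_cut_lt b lam C.h y (by linarith)]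
    have := b.β_add_s y σ (θ + α * σ) 1
    rw [Int.cast_one, add_comm σ 1] at this
    rw [this]

theorem modulus_dist (y : Y) (s s' θ θ' : ℝ) (υ υ' : T) {δ : ℝ} (hδ : 0 < δ)
    (hs : |s - s'| < δ) (hθ : |θ - θ'| < δ) (hυ : ‖υ - υ'‖ < δ) :
    dist (y, s, θ, υ) (y, s', θ', υ') < δ := by
  rw [Prod.dist_eq, Prod.dist_eq, Prod.dist_eq, dist_self, Real.dist_eq, Real.dist_eq,
    dist_eq_norm]
  exact max_lt hδ (max_lt hs (max_lt hθ hυ))

theorem ucex [CompactSpace B] [CompactSpace M] (b : Base X Y B) (e : M) : UCex_Stmt b M e := by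
  intro lam C ε _ _ hε
  obtain ⟨δ, hδ, hunif⟩ := modulus_unif b C (half_pos hε)
  obtain ⟨n₀, hn₀⟩ := exists_nat_gt (1 / δ)
  refine ⟨max 4 n₀, le_max_left _ _, ?_⟩
  intro α hα0 hα1 y θ₀ σ₁ σ₂ υ hy hσ₁ hσ₂ h12
  have hn : (0 : ℝ) < ((max 4 n₀ : ℕ) : ℝ) := by
    have : 0 < max 4 n₀ := lt_of_lt_of_le (by norm_num) (le_max_left 4 n₀)
    exact_mod_cast this
  have hlt : |σ₁ - σ₂| < δ := by
    refine lt_of_le_of_lt h12 ?_
    rw [div_lt_iff₀ hn]
    have h1 : (n₀ : ℝ) ≤ ((max 4 n₀ : ℕ) : ℝ) := by exact_mod_cast le_max_right 4 n₀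
    have h2 : 1 < n₀ * δ := by
      rw [div_lt_iff₀ hδ] at hn₀
      exact hn₀
    nlinarith
  -- normalise the angle
  have hθ : ∀ σ, b.ta lam α y θ₀ σ υ = b.ta lam α y (cr θ₀) σ υ := by
    intro σ
    have h1 := b.ta_add_int lam α y (cr θ₀) σ υ (round θ₀)
    rw [← h1]
    congr 1
    unfold cr
    ring
  rw [hθ, hθ]
  have hθ1 : |cr θ₀| ≤ 1 / 2 := abs_cr_le_half θ₀
  set θ := cr θ₀ with hθdef
  have hασ : ∀ σ : ℝ, |σ| ≤ 3 / 4 → |θ + α * σ| ≤ 3 := by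
    intro σ hσ
    have h1 : |α * σ| ≤ 1 * (3 / 4) := by
      rw [abs_mul, abs_of_nonneg hα0]
      exact mul_le_mul hα1 hσ (abs_nonneg _) zero_le_one
    have := abs_add_le θ (α * σ)
    linarith
  have hdiff : ∀ s s' : ℝ, |s - s'| < δ → |θ + α * s - (θ + α * s')| < δ := by
    intro s s' hs
    have h1 : θ + α * s - (θ + α * s') = α * (s - s') := by ring
    rw [h1, abs_mul, abs_of_nonneg hα0]
    calc α * |s - s'| ≤ 1 * |s - s'| := by gcongr
      _ < δ := by rw [one_mul]; exact hs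
  -- both nonnegative
  have hpos : ∀ s s' : ℝ, 0 ≤ s → 0 ≤ s' → |s| ≤ 3 / 4 → |s'| ≤ 3 / 4 → |s - s'| < δ →
      dist (C.h (b.ta lam α y θ s υ)) (C.h (b.ta lam α y θ s' υ)) < ε / 2 := by
    intro s s' h0 h0' h1 h1' h2
    have h3 := (abs_le.1 h1).2
    have h3' := (abs_le.1 h1').2
    rw [modulus_ta_nonneg b C α y θ h0 (by linarith), modulus_ta_nonneg b C α y θ h0' (by linarith)]
    refine hunif _ (modulus_mem b _ hy h0 (by linarith) (hασ s h1)) _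
      (modulus_mem b _ hy h0' (by linarith) (hασ s' h1')) ?_
    refine modulus_dist _ _ _ _ _ _ _ hδ h2 (hdiff s s' h2) ?_
    rw [sub_self, norm_zero]
    exact hδ
  have hneg : ∀ s s' : ℝ, s ≤ 0 → s' ≤ 0 → |s| ≤ 3 / 4 → |s'| ≤ 3 / 4 → |s - s'| < δ →
      dist (C.h (b.ta lam α y θ s υ)) (C.h (b.ta lam α y θ s' υ)) < ε / 2 := by
    intro s s' h0 h0' h1 h1' h2
    have h3 := (abs_le.1 h1).1
    have h3' := (abs_le.1 h1').1
    rw [modulus_ta_nonpos b C α y θ h0, modulus_ta_nonpos b C α y θ h0']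
    refine hunif _ (modulus_mem b _ hy (by linarith) (by linarith) (hασ s h1)) _
      (modulus_mem b _ hy (by linarith) (by linarith) (hασ s' h1')) ?_
    refine modulus_dist _ _ _ _ _ _ _ hδ ?_ (hdiff s s' h2) ?_
    · rw [add_sub_add_left_eq_sub]
      exact h2
    · rw [sub_self, norm_zero]
      exact hδ
  have hz : |(0 : ℝ)| ≤ 3 / 4 := by
    rw [abs_zero]
    norm_num
  rcases le_total 0 σ₁ with h1 | h1 <;> rcases le_total 0 σ₂ with h2 | h2
  · exact (hpos σ₁ σ₂ h1 h2 hσ₁ hσ₂ hlt).trans (half_lt_self hε)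
  · -- `σ₂ ≤ 0 ≤ σ₁`
    have h3 : |σ₁ - 0| < δ := by
      rw [sub_zero, abs_of_nonneg h1]
      rw [abs_of_nonneg (by linarith)] at hlt
      linarith
    have h4 : |0 - σ₂| < δ := by
      rw [zero_sub, abs_neg, abs_of_nonpos h2]
      rw [abs_of_nonneg (by linarith)] at hlt
      linarith
    have h5 := hpos σ₁ 0 h1 le_rfl hσ₁ hz h3
    have h6 := hneg 0 σ₂ le_rfl h2 hz hσ₂ h4
    have := dist_triangle (C.h (b.ta lam α y θ σ₁ υ)) (C.h (b.ta lam α y θ 0 υ))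
      (C.h (b.ta lam α y θ σ₂ υ))
    linarith
  · have h3 : |σ₁ - 0| < δ := by
      rw [sub_zero, abs_of_nonpos h1]
      rw [abs_of_nonpos (by linarith)] at hlt
      linarith
    have h4 : |0 - σ₂| < δ := by
      rw [zero_sub, abs_neg, abs_of_nonneg h2]
      rw [abs_of_nonpos (by linarith)] at hlt
      linarith
    have h5 := hneg σ₁ 0 h1 le_rfl hσ₁ hz h3
    have h6 := hpos 0 σ₂ le_rfl h2 hz hσ₂ h4
    have := dist_triangle (C.h (b.ta lam α y θ σ₁ υ)) (C.h (b.ta lam α y θ 0 υ))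
      (C.h (b.ta lam α y θ σ₂ υ))
    linarith
  · exact (hneg σ₁ σ₂ h1 h2 hσ₁ hσ₂ hlt).trans (half_lt_self hε)

/-- small rotations are uniformly small -/
theorem modulus_rot [CompactSpace B] (b : Base X Y B) {δ : ℝ} (hδ : 0 < δ) :
    ∃ κ : ℝ, 0 < κ ∧ ∀ z t, |t| ≤ κ → dist (b.R t z) z < δ := by
  have hK : IsCompact (Icc (-1 : ℝ) 1 ×ˢ (univ : Set B)) := isCompact_Icc.prod isCompact_univ
  have h2 := hK.uniformContinuousOn_of_continuous b.R_cont.continuousOn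
  rw [Metric.uniformContinuousOn_iff] at h2
  obtain ⟨κ, hκ, h3⟩ := h2 δ hδ
  refine ⟨min 1 (κ / 2), lt_min one_pos (half_pos hκ), fun z t ht => ?_⟩
  have ht1 : |t| ≤ 1 := ht.trans (min_le_left _ _)
  have ht2 : |t| ≤ κ / 2 := ht.trans (min_le_right _ _)
  have h4 := h3 (t, z) ⟨abs_le.1 ht1, mem_univ _⟩ (0, z) ⟨⟨by norm_num, by norm_num⟩, mem_univ _⟩ (by
    rw [Prod.dist_eq, dist_self, Real.dist_eq, sub_zero]
    exact max_lt (by linarith) hκ)
  simpa only [b.R_zero] using h4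

theorem urex [CompactSpace B] [CompactSpace M] (b : Base X Y B) (e : M) : URex_Stmt b M e := by
  intro lam C ε _ _ hε
  obtain ⟨δ₁, hδ₁, hunif⟩ := modulus_unif b C hε
  -- the outer part
  set Z₀ : Set B := (b.β '' {q | -(1 / 20) < b.ρ q.1})ᶜ with hZ₀
  have hopen : IsOpen (b.β '' {q | -(1 / 20) < b.ρ q.1}) :=
    b.β_open _ (isOpen_lt continuous_const (b.ρ_cont.comp continuous_fst))
  have hZ₀c : IsCompact (Z₀ ×ˢ (univ : Set T)) :=
    (hopen.isClosed_compl.isCompact).prod isCompact_univ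
  have hcont : ∀ p ∈ Z₀ ×ˢ (univ : Set T), ContinuousAt C.h p := by
    rintro ⟨z, υ⟩ ⟨hz, -⟩
    refine C.ocont z υ ?_
    rintro ⟨q, hq, rfl⟩
    refine hz ⟨q, ?_, rfl⟩
    have : (0 : ℝ) ≤ b.ρ q.1 := hq
    show -(1 / 20) < b.ρ q.1
    linarith
  have h1 := hZ₀c.uniformContinuousAt_of_continuousAt C.h hcont (Metric.dist_mem_uniformity hε)
  obtain ⟨δ₂, hδ₂, h2⟩ := Metric.mem_uniformity_dist.1 h1
  obtain ⟨κ₂, hκ₂, hrot⟩ := modulus_rot b hδ₂
  refine ⟨min 1 (min (δ₁ / 2) (min (δ₂ / 2) κ₂)), by positivity, ?_⟩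
  intro z υ t u ht hu
  have ht1 : |t| ≤ 1 := ht.trans (min_le_left _ _)
  have ht2 : |t| ≤ δ₁ / 2 := ht.trans ((min_le_right _ _).trans (min_le_left _ _))
  have ht3 : |t| ≤ κ₂ :=
    ht.trans ((min_le_right _ _).trans ((min_le_right _ _).trans (min_le_right _ _)))
  have hu2 : ‖u‖ ≤ δ₁ / 2 := hu.trans ((min_le_right _ _).trans (min_le_left _ _))
  have hu3 : ‖u‖ ≤ δ₂ / 2 :=
    hu.trans ((min_le_right _ _).trans ((min_le_right _ _).trans (min_le_left _ _)))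
  by_cases hz : z ∈ Z₀
  · have h3 : ((z, υ), (b.R t z, υ + u)) ∈
        {x : (B × T) × B × T | x.1 ∈ Z₀ ×ˢ (univ : Set T) →
          (C.h x.1, C.h x.2) ∈ {p : M × M | dist p.1 p.2 < ε}} := by
      apply h2
      rw [Prod.dist_eq]
      refine max_lt ?_ ?_
      · rw [dist_comm]
        exact hrot z t ht3
      · rw [dist_eq_norm]
        show ‖υ - (υ + u)‖ < δ₂
        rw [sub_add_cancel_left, norm_neg]
        linarith
    have h4 := h3 ⟨hz, mem_univ _⟩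
    rw [dist_comm]
    exact h4
  · -- the chart
    rw [hZ₀, notMem_compl_iff] at hz
    obtain ⟨⟨y₀, s₀, θ₀⟩, hq, hzq⟩ := hz
    obtain ⟨y, s, θ, hs, hs', hθ, rfl⟩ := b.exists_rep (z := z) ⟨_, hzq⟩
    have hy : y₀ = y := ((b.β_eq _ _ _ _ _ _).1 hzq).1
    subst hy
    have hy : -(1 / 20) ≤ b.ρ y₀ := le_of_lt hq
    rw [b.R_β, ← modulus_cut_lt b lam C.h y₀ hs', ← modulus_cut_lt b lam C.h y₀ hs']
    have hθt : |θ + t| ≤ 3 := by
      have := abs_add_le θ t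
      linarith
    refine hunif _ (modulus_mem b _ hy hs hs'.le hθt) _
      (modulus_mem b _ hy hs hs'.le (by linarith)) ?_
    refine modulus_dist _ _ _ _ _ _ _ hδ₁ ?_ ?_ ?_
    · rw [sub_self, abs_zero]
      exact hδ₁
    · rw [add_sub_cancel_left]
      linarith
    · rw [add_sub_cancel_left]
      linarith

end Pool.Agent.EvenHomeo
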